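import Mathlib

namespace Pool.Agent.Results.MP_7a9eeb_co.Sixteen

open Classical in
/-- The neighbourhood Lights Out game on `G` with labels in `ZMod l` can be won from every
labelling: toggling each vertex `u` exactly `t u` times turns all labels to zero. -/
def AlwaysWinnable {n : ℕ} (G : SimpleGraph (Fin n)) (l : ℕ) : Prop :=
  ∀ lab : Fin n → ZMod l, ∃ t : Fin n → ℕ, ∀ v,
    lab v + ∑ u, (if v = u ∨ G.Adj u v then (t u : ZMod l) else 0) = 0

/-- The largest number of edges of an always winnable graph on `n` vertices. -/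
noncomputable def maxEdges (n l : ℕ) : ℕ :=
  sSup {e | ∃ G : SimpleGraph (Fin n), AlwaysWinnable G l ∧ G.edgeSet.ncard = e}

/-- The least `k` with `gcd (n - 2k - 1, l) = 1`. -/
noncomputable def kk (n l : ℕ) : ℕ :=
  sInf {k : ℕ | Int.gcd ((n : ℤ) - 2 * k - 1) l = 1}

def EH : List (Fin 16 × Fin 16) := [(0, 1), (2, 3), (4, 5), (6, 7), (8, 9), (10, 11), (12, 13), (14, 15), (1, 4), (3, 4), (5, 6), (7, 8), (7, 10), (7, 12)]

def adj (u v : Fin 16) : Bool := u != v && !EH.contains (u, v) && !EH.contains (v, u)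

def G0 : SimpleGraph (Fin 16) where
  Adj u v := adj u v = true
  symm := ⟨by decide +kernel⟩
  loopless := ⟨by decide +kernel⟩

instance : DecidableRel G0.Adj := fun u v => inferInstanceAs (Decidable (adj u v = true))

def BL : List (List ℤ) :=
   [[4, -3, 4, -2, -6, 3, 4, -5, -2, 3, -2, 3, -2, 3, -2, -2],
    [-3, 1, -2, 1, 3, -1, -2, 2, 1, -1, 1, -1, 1, -1, 1, 1],
    [4, -2, 4, -3, -6, 3, 4, -5, -2, 3, -2, 3, -2, 3, -2, -2],
    [-2, 1, -3, 1, 3, -1, -2, 2, 1, -1, 1, -1, 1, -1, 1, 1],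
    [-6, 3, -6, 3, 9, -4, -6, 7, 3, -4, 3, -4, 3, -4, 3, 3],
    [3, -1, 3, -1, -4, 1, 2, -2, -1, 1, -1, 1, -1, 1, -1, -1],
    [4, -2, 4, -2, -6, 2, 4, -5, -2, 3, -2, 3, -2, 3, -2, -2],
    [-5, 2, -5, 2, 7, -2, -5, 4, 2, -2, 2, -2, 2, -2, 2, 2],
    [-2, 1, -2, 1, 3, -1, -2, 2, 1, -2, 1, -1, 1, -1, 1, 1],
    [3, -1, 3, -1, -4, 1, 3, -2, -2, 1, -1, 1, -1, 1, -1, -1],
    [-2, 1, -2, 1, 3, -1, -2, 2, 1, -1, 1, -2, 1, -1, 1, 1],
    [3, -1, 3, -1, -4, 1, 3, -2, -1, 1, -2, 1, -1, 1, -1, -1],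
    [-2, 1, -2, 1, 3, -1, -2, 2, 1, -1, 1, -1, 1, -2, 1, 1],
    [3, -1, 3, -1, -4, 1, 3, -2, -1, 1, -1, 1, -2, 1, -1, -1],
    [-2, 1, -2, 1, 3, -1, -2, 2, 1, -1, 1, -1, 1, -1, 1, 0],
    [-2, 1, -2, 1, 3, -1, -2, 2, 1, -1, 1, -1, 1, -1, 0, 1]]

def B (i j : Fin 16) : ℤ := (BL.getD i []).getD j 0

lemma inv : ∀ v w : Fin 16, ∑ u, (if v = u ∨ G0.Adj u v then B u w else 0)
    = if v = w then 1 else 0 := by decide +kernel

lemma win (l : ℕ) [NeZero l] : AlwaysWinnable G0 l := by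
  intro lab
  refine ⟨fun u => (-∑ w, (B u w : ZMod l) * lab w).val, fun v => ?_⟩
  have h : ∀ u, (if v = u ∨ G0.Adj u v then -∑ w, (B u w : ZMod l) * lab w else 0)
      = -∑ w, ((if v = u ∨ G0.Adj u v then B u w else 0 : ℤ) : ZMod l) * lab w := by
    intro u
    split_ifs <;> simp
  have h2 : ∑ u, (if v = u ∨ G0.Adj u v then -∑ w, (B u w : ZMod l) * lab w else 0)
      = - lab v := by
    simp only [h, Finset.sum_neg_distrib]
    rw [Finset.sum_comm]
    simp only [← Finset.sum_mul, ← Int.cast_sum, inv]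
    simp
  simp only [ZMod.natCast_zmod_val]
  rw [add_eq_zero_iff_neg_eq, ← h2]

lemma card : G0.edgeSet.ncard = 106 := by
  have := G0.sum_degrees_eq_twice_card_edges
  rw [← Set.ncard_coe_finset, SimpleGraph.coe_edgeFinset] at this
  have h : ∑ v, G0.degree v = 212 := by decide +kernel
  omega

lemma k7 : kk 16 30030 = 7 := by
  apply le_antisymm (Nat.sInf_le (by decide +kernel))
  refine le_csInf ⟨7, by decide +kernel⟩ fun k hk => ?_
  by_contra h
  have h' : k < 7 := by omega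
  revert hk
  interval_cases k <;> decide +kernel

theorem result : ∃ n l : ℕ, 2 ≤ n ∧ 2 ≤ l ∧ Even n ∧ Even l ∧ 4 ≤ kk n l ∧
    n.choose 2 - (n / 2 + kk n l) < maxEdges n l := by
  refine ⟨16, 30030, by omega, by omega, by decide, by decide, by rw [k7]; omega, ?_⟩
  rw [k7]
  have : 106 ≤ maxEdges 16 30030 := by
    refine le_csSup ⟨Nat.card (Sym2 (Fin 16)), ?_⟩ ⟨G0, win _, card⟩
    rintro e ⟨G, -, rfl⟩
    exact Set.ncard_le_card _
  have h : Nat.choose 16 2 = 120 := by decide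
  omega

end Pool.Agent.Results.MP_7a9eeb_co.Sixteen
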